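import Pool.Agent.H999_TwoFactor.MaxPoly

/-!
# The maximum square-free 2-matching problem in its threshold form is in `coNP`

The input is a finite simple graph given by an adjacency matrix `M : List (List Bool)` and a number
`k`; `matGraph M` is the graph, its vertices are the row indices of `M`. The question is whether
the graph has a square-free 2-matching with at least `k` edges. A graph without such a 2-matching
has a certificate for this which is verified in polynomial time.
-/

namespace Pool.Agent.Results.MP_f684dc_lc.ThresholdCoNP

open Pool.Agent.NPC Pool.Agent.H622R2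

/-- `N` is a 2-matching of `G`: a subgraph in which every vertex has degree at most 2. -/
def IsTwoMatching {V : Type*} (G N : SimpleGraph V) : Prop :=
  N ≤ G ∧ ∀ v, (N.neighborSet v).ncard ≤ 2

/-- `N` is square-free: it has no cycle of length 4. -/
def IsSquareFree {V : Type*} (N : SimpleGraph V) : Prop :=
  ∀ (v : V) (p : N.Walk v v), p.IsCycle → p.length ≠ 4

/-- `G` has a square-free 2-matching with at least `k` edges. -/
def HasSquareFreeTwoMatching {V : Type*} (G : SimpleGraph V) (k : ℕ) : Prop :=
  ∃ N, IsTwoMatching G N ∧ IsSquareFree N ∧ k ≤ N.edgeSet.ncard

/-- The threshold problem: does the graph with adjacency matrix `x.1` have a square-free 2-matching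
with at least `x.2` edges? -/
def Threshold (x : List (List Bool) × ℕ) : Prop :=
  HasSquareFreeTwoMatching (matGraph x.1) x.2

/-- The threshold problem is in `coNP`; so if it is `NP`-hard, then every problem in `NP` is in
`coNP`. -/
theorem result : InCoNPP Threshold ∧
    (NPHardP Threshold → ∀ L : Set (List Bool), InNP L → InCoNP L) :=
  ⟨H999.inCoNPP_TM, fun h L hL => InNP.of_reduces (Reduces.compl (h L hL)) H999.inCoNPP_TM⟩

end Pool.Agent.Results.MP_f684dc_lc.ThresholdCoNP
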